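import Pool.Agent.Helper62K9.SQ.St

set_option autoImplicit false

/-!
# The circuit of `S_UP`
-/

namespace Pool.Agent.Helper68K9.SQ

open Finset Pool.Agent.Helper62K9.DV Pool.Agent.Helper62K9.SQ

namespace UpL

/-- clamp -/
def fc (n i : ℕ) : Fin (n + 1) := ⟨min i n, by omega⟩

theorem fc_val {n i : ℕ} (h : i ≤ n) : ((fc n i : Fin (n + 1)) : ℕ) = i := by simp [fc, h]

theorem fc_self {n : ℕ} (i : Fin (n + 1)) : fc n i = i := by
  ext
  simp only [fc]
  omega

variable (n L B : ℕ)

/-- small sets -/
abbrev KT : Type := {K : Finset (Fin n) // K.card ≤ L}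

/-- parameters -/
abbrev PT : Type := Fin (n + 1) × Fin (n + 1) × Fin (n + 1) × KT n L × Fin (B + 1)

/-- gates -/
abbrev GT : Type := (Fin (n + 1) × Fin (B + 1)) ⊕ (PT n L B ⊕ (PT n L B ⊕ PT n L B))

/-- start of a block -/
def gS (a r : ℕ) : GT n L B := .inl (fc n a, fc B r)

/-- the or-gate inside a block -/
def gC (a b w : ℕ) (K : KT n L) (r : ℕ) : GT n L B :=
  .inr (.inl (fc n a, fc n b, fc n w, K, fc B r))

/-- the and-gate inside a block -/
def gA (a b w : ℕ) (K : KT n L) (r : ℕ) : GT n L B :=
  .inr (.inr (.inl (fc n a, fc n b, fc n w, K, fc B r)))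

/-- the leaf inside a block -/
def gL (a b w : ℕ) (K : KT n L) (r : ℕ) : GT n L B :=
  .inr (.inr (.inr (fc n a, fc n b, fc n w, K, fc B r)))

/-- the test of a leaf -/
def leafF (a b w : ℕ) (K : Finset (Fin n)) (x : Sym2 (Fin n) → Bool) : Prop :=
  ∀ u v : Fin n, (v : ℕ) = w → a ≤ (u : ℕ) → (u : ℕ) < b → u < v → u ∉ K → x s(u, v) = false

open Classical in
/-- the variables of a leaf -/
noncomputable def leafS (a b w : ℕ) : Finset (Sym2 (Fin n)) :=
  univ.filter fun e => ∃ u v : Fin n, e = s(u, v) ∧ (v : ℕ) = w ∧ a ≤ (u : ℕ) ∧ (u : ℕ) < b ∧ u < v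

open Classical in
/-- the gates -/
noncomputable def gateU : GT n L B → Gate (Sym2 (Fin n)) (GT n L B)
  | .inl (a, r) => if (a : ℕ) = n then .leaf ∅ fun _ => True else
      .disj ((univ.filter fun p : Fin (n + 1) × KT n L => a < p.1).image
        fun p => gC n L B a p.1 a p.2 r)
  | .inr (.inl (a, b, w, K, r)) => if (w : ℕ) = n then .disj {gS n L B b r} else
      .disj ((if 0 < (r : ℕ) then {gC n L B a b (w + 1) K (r - 1)} else ∅) ∪
        (if ∀ v ∈ K.1, (v : ℕ) ≠ w then {gA n L B a b w K r} else ∅))
  | .inr (.inr (.inl (a, b, w, K, r))) => if (w : ℕ) = n then .disj ∅ else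
      .conj (gL n L B a b w K r) (gC n L B a b (w + 1) K r)
  | .inr (.inr (.inr (a, b, w, K, _))) => .leaf (leafS n a b w) (leafF n a b w K.1)

/-- the rank -/
def rankU : GT n L B → ℕ
  | .inl (a, _) => (n - a) * (3 * n + 8) + 1
  | .inr (.inl (_, b, w, _, _)) => (n - b) * (3 * n + 8) + 3 * (n - w) + 4
  | .inr (.inr (.inl (_, b, w, _, _))) => (n - b) * (3 * n + 8) + 3 * (n - w) + 3
  | .inr (.inr (.inr _)) => 0

theorem rank_gS (a r : ℕ) : rankU n L B (gS n L B a r) = (n - min a n) * (3 * n + 8) + 1 := rfl

theorem rank_gC (a b w : ℕ) (K : KT n L) (r : ℕ) :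
    rankU n L B (gC n L B a b w K r) = (n - min b n) * (3 * n + 8) + 3 * (n - min w n) + 4 := rfl

theorem rank_gA (a b w : ℕ) (K : KT n L) (r : ℕ) :
    rankU n L B (gA n L B a b w K r) = (n - min b n) * (3 * n + 8) + 3 * (n - min w n) + 3 := rfl

theorem rank_gL (a b w : ℕ) (K : KT n L) (r : ℕ) :
    rankU n L B (gL n L B a b w K r) = 0 := rfl

/-- the circuit -/
noncomputable def circ : Circuit (Sym2 (Fin n)) (GT n L B) where
  gate := gateU n L B
  out := gS n L B 0 B
  rank := rankU n L B
  disj_lt := by
    classical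
    intro v A hv c hc
    match v with
    | .inl (a, r) =>
      simp only [gateU] at hv
      split_ifs at hv with h
      simp only [Gate.disj.injEq] at hv
      rw [← hv] at hc
      obtain ⟨p, hp, rfl⟩ := mem_image.1 hc
      have hap : a < p.1 := (mem_filter.1 hp).2
      rw [rank_gC]
      have ha := a.2
      have hb := p.1.2
      have hab : (a : ℕ) < p.1 := hap
      simp only [rankU]
      have h1 : n - min (p.1 : ℕ) n + 1 ≤ n - a := by omega
      have h2 : (n - min (p.1 : ℕ) n + 1) * (3 * n + 8) ≤ (n - a) * (3 * n + 8) :=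
        Nat.mul_le_mul_right _ h1
      have h3 : 3 * (n - min (a : ℕ) n) ≤ 3 * n := by omega
      linarith
    | .inr (.inl (a, b, w, K, r)) =>
      simp only [gateU] at hv
      split_ifs at hv with h
      · simp only [Gate.disj.injEq] at hv
        rw [← hv, mem_singleton] at hc
        subst hc
        rw [rank_gS]
        simp only [rankU]
        have hb : min (b : ℕ) n = b := by omega
        rw [hb]
        omega
      all_goals
        simp only [Gate.disj.injEq] at hv
        rw [← hv] at hc
        have hw := w.2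
        have hb : min (b : ℕ) n = b := by omega
        simp only [mem_union, mem_singleton, notMem_empty, or_false, false_or] at hc
      · rcases hc with rfl | rfl
        · rw [rank_gC, hb]
          simp only [rankU]
          omega
        · rw [rank_gA, hb]
          simp only [rankU]
          omega
      · subst hc
        rw [rank_gC, hb]
        simp only [rankU]
        omega
      · subst hc
        rw [rank_gA, hb]
        simp only [rankU]
        omega
    | .inr (.inr (.inl (a, b, w, K, r))) =>
      simp only [gateU] at hv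
      split_ifs at hv with h
      simp only [Gate.disj.injEq] at hv
      rw [← hv] at hc
      simp at hc
    | .inr (.inr (.inr (a, b, w, K, r))) => simp [gateU] at hv
  conj_lt := by
    intro v c d hv
    match v with
    | .inl (a, r) =>
      simp only [gateU] at hv
      split_ifs at hv with h
    | .inr (.inl (a, b, w, K, r)) =>
      simp only [gateU] at hv
      split_ifs at hv with h
    | .inr (.inr (.inl (a, b, w, K, r))) =>
      simp only [gateU] at hv
      split_ifs at hv with h
      simp only [Gate.conj.injEq] at hv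
      obtain ⟨rfl, rfl⟩ := hv
      have hw := w.2
      have hb : min (b : ℕ) n = b := by omega
      rw [rank_gC, rank_gL, hb]
      simp only [rankU]
      omega
    | .inr (.inr (.inr (a, b, w, K, r))) => simp [gateU] at hv
  local_leaf := by
    intro v S f hv x y hxy hf
    match v with
    | .inl (a, r) =>
      simp only [gateU] at hv
      split_ifs at hv with h
      simp only [Gate.leaf.injEq] at hv
      rw [← hv.2]
      trivial
    | .inr (.inl (a, b, w, K, r)) =>
      simp only [gateU] at hv
      split_ifs at hv with h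
    | .inr (.inr (.inl (a, b, w, K, r))) =>
      simp only [gateU] at hv
      split_ifs at hv with h
    | .inr (.inr (.inr (a, b, w, K, r))) =>
      simp only [gateU, Gate.leaf.injEq] at hv
      obtain ⟨rfl, rfl⟩ := hv
      intro u v h1 h2 h3 h4 h5
      rw [← hxy _ (by simp only [leafS, mem_filter, mem_univ, true_and]; exact ⟨u, v, rfl, h1, h2, h3, h4⟩)]
      exact hf u v h1 h2 h3 h4 h5

section gates

variable {n L B}

open Classical in
theorem gate_S {a r : ℕ} (ha : a < n) (hr : r ≤ B) : (circ n L B).gate (gS n L B a r) =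
    .disj ((univ.filter fun p : Fin (n + 1) × KT n L => a < (p.1 : ℕ)).image
        fun p => gC n L B a p.1 a p.2 r) := by
  change gateU n L B (.inl (fc n a, fc B r)) = _
  simp only [gateU]
  rw [if_neg (by rw [fc_val ha.le]; omega)]
  congr 1
  have h1 : (fc n a : ℕ) = a := fc_val ha.le
  have h2 : (fc B r : ℕ) = r := fc_val hr
  simp only [Fin.lt_def, h1, h2]

theorem gate_Sn {r : ℕ} : (circ n L B).gate (gS n L B n r) = .leaf ∅ fun _ => True := by
  change gateU n L B (.inl (fc n n, fc B r)) = _
  simp only [gateU]
  rw [if_pos (by rw [fc_val le_rfl])]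

open Classical in
theorem gate_C {a b w r : ℕ} {K : KT n L} (ha : a ≤ n) (hb : b ≤ n) (hw : w < n) (hr : r ≤ B) :
    (circ n L B).gate (gC n L B a b w K r) =
    .disj ((if 0 < r then {gC n L B a b (w + 1) K (r - 1)} else ∅) ∪
        (if ∀ v ∈ K.1, (v : ℕ) ≠ w then {gA n L B a b w K r} else ∅)) := by
  change gateU n L B (.inr (.inl (fc n a, fc n b, fc n w, K, fc B r))) = _
  simp only [gateU]
  rw [if_neg (by rw [fc_val hw.le]; omega)]
  simp only [fc_val ha, fc_val hb, fc_val hw.le, fc_val hr]

theorem gate_Cn {a b r : ℕ} {K : KT n L} (hb : b ≤ n) (hr : r ≤ B) :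
    (circ n L B).gate (gC n L B a b n K r) = .disj {gS n L B b r} := by
  change gateU n L B (.inr (.inl (fc n a, fc n b, fc n n, K, fc B r))) = _
  simp only [gateU]
  rw [if_pos (by rw [fc_val le_rfl])]
  simp only [fc_val hb, fc_val hr]

theorem gate_A {a b w r : ℕ} {K : KT n L} (ha : a ≤ n) (hb : b ≤ n) (hw : w < n) (hr : r ≤ B) :
    (circ n L B).gate (gA n L B a b w K r) =
    .conj (gL n L B a b w K r) (gC n L B a b (w + 1) K r) := by
  change gateU n L B (.inr (.inr (.inl (fc n a, fc n b, fc n w, K, fc B r)))) = _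
  simp only [gateU]
  rw [if_neg (by rw [fc_val hw.le]; omega)]
  simp only [fc_val ha, fc_val hb, fc_val hw.le, fc_val hr]

theorem gate_L {a b w r : ℕ} {K : KT n L} (ha : a ≤ n) (hb : b ≤ n) (hw : w ≤ n) :
    (circ n L B).gate (gL n L B a b w K r) = .leaf (leafS n a b w) (leafF n a b w K.1) := by
  change gateU n L B (.inr (.inr (.inr (fc n a, fc n b, fc n w, K, fc B r)))) = _
  simp only [gateU, fc_val ha, fc_val hb, fc_val hw]

/-- every gate -/
theorem gS_self (a : Fin (n + 1)) (r : Fin (B + 1)) :
    (.inl (a, r) : GT n L B) = gS n L B a r := by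
  simp only [gS, fc_self]

theorem gC_self (a b w : Fin (n + 1)) (K : KT n L) (r : Fin (B + 1)) :
    (.inr (.inl (a, b, w, K, r)) : GT n L B) = gC n L B a b w K r := by
  simp only [gC, fc_self]

theorem gA_self (a b w : Fin (n + 1)) (K : KT n L) (r : Fin (B + 1)) :
    (.inr (.inr (.inl (a, b, w, K, r))) : GT n L B) = gA n L B a b w K r := by
  simp only [gA, fc_self]

theorem gL_self (a b w : Fin (n + 1)) (K : KT n L) (r : Fin (B + 1)) :
    (.inr (.inr (.inr (a, b, w, K, r))) : GT n L B) = gL n L B a b w K r := by
  simp only [gL, fc_self]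

end gates

section reads

variable {n L B}

/-- the variables below the gates -/
theorem reads_aux (m : ℕ) :
    (∀ a r : ℕ, a ≤ n → r ≤ B → n - a ≤ m → ∀ e, (circ n L B).Reads (gS n L B a r) e →
      ∃ u v : Fin n, e = s(u, v) ∧ u < v ∧ a ≤ (u : ℕ)) := by
  classical
  induction m using Nat.strong_induction_on with
  | _ m IH =>
    intro a r ha hr hm e he
    rcases Nat.lt_or_ge a n with han | han
    · rw [reads_disj (gate_S han hr)] at he
      obtain ⟨c, hc, he⟩ := he
      obtain ⟨⟨b, K⟩, hp, rfl⟩ := mem_image.1 hc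
      have hab : a < (b : ℕ) := (mem_filter.1 hp).2
      have hbn : (b : ℕ) ≤ n := by omega
      -- inside the block
      have key : ∀ j w : ℕ, w ≤ n → n - w ≤ j → ∀ r' ≤ B,
          (circ n L B).Reads (gC n L B a b w K r') e →
          ∃ u v : Fin n, e = s(u, v) ∧ u < v ∧ a ≤ (u : ℕ) := by
        intro j
        induction j with
        | zero =>
          intro w hw hj r' hr' he'
          have : w = n := by omega
          subst this
          rw [reads_disj (gate_Cn hbn hr')] at he'
          obtain ⟨c, hc, he'⟩ := he'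
          rw [mem_singleton] at hc
          subst hc
          obtain ⟨u, v, h1, h2, h3⟩ := IH _ (by omega) b r' hbn hr' le_rfl e he'
          exact ⟨u, v, h1, h2, by omega⟩
        | succ j ih =>
          intro w hw hj r' hr' he'
          rcases Nat.lt_or_ge w n with hwn | hwn
          · rw [reads_disj (gate_C ha hbn hwn hr')] at he'
            obtain ⟨c, hc, he'⟩ := he'
            rw [mem_union] at hc
            rcases hc with hc | hc
            · split_ifs at hc with h0
              · rw [mem_singleton] at hc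
                subst hc
                exact ih (w + 1) (by omega) (by omega) _ (by omega) he'
              · simp at hc
            · split_ifs at hc with h0
              · rw [mem_singleton] at hc
                subst hc
                rw [reads_conj (gate_A ha hbn hwn hr')] at he'
                rcases he' with he' | he'
                · rw [reads_leaf (gate_L ha hbn hwn.le)] at he'
                  obtain ⟨u, v, h1, h2, h3, h4, h5⟩ := (mem_filter.1 he').2
                  exact ⟨u, v, h1, h5, h3⟩
                · exact ih (w + 1) (by omega) (by omega) _ (by omega) he'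
              · simp at hc
          · exact ih w hw (by omega) r' hr' he'
      exact key n a ha (by omega) r hr he
    · have : a = n := by omega
      subst this
      rw [reads_leaf gate_Sn] at he
      simp at he

theorem reads_S {a r : ℕ} (ha : a ≤ n) (hr : r ≤ B) {e : Sym2 (Fin n)}
    (he : (circ n L B).Reads (gS n L B a r) e) :
    ∃ u v : Fin n, e = s(u, v) ∧ u < v ∧ a ≤ (u : ℕ) :=
  reads_aux n a r ha hr (by omega) e he

theorem reads_C {a b : ℕ} {K : KT n L} (ha : a ≤ n) (hb : b ≤ n) {e : Sym2 (Fin n)} :
    ∀ j w : ℕ, w ≤ n → n - w ≤ j → ∀ r ≤ B, (circ n L B).Reads (gC n L B a b w K r) e →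
    ∃ u v : Fin n, e = s(u, v) ∧ u < v ∧ (b ≤ (u : ℕ) ∨ w ≤ (v : ℕ)) := by
  classical
  intro j
  induction j with
  | zero =>
    intro w hw hj r' hr' he'
    have : w = n := by omega
    subst this
    rw [reads_disj (gate_Cn hb hr')] at he'
    obtain ⟨c, hc, he'⟩ := he'
    rw [mem_singleton] at hc
    subst hc
    obtain ⟨u, v, h1, h2, h3⟩ := reads_S hb hr' he'
    exact ⟨u, v, h1, h2, Or.inl h3⟩
  | succ j ih =>
    intro w hw hj r' hr' he'
    rcases Nat.lt_or_ge w n with hwn | hwn
    · have step : ∀ r'' ≤ B, (circ n L B).Reads (gC n L B a b (w + 1) K r'') e →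
          ∃ u v : Fin n, e = s(u, v) ∧ u < v ∧ (b ≤ (u : ℕ) ∨ w ≤ (v : ℕ)) := by
        intro r'' hr'' h
        obtain ⟨u, v, h1, h2, h3⟩ := ih (w + 1) (by omega) (by omega) _ hr'' h
        exact ⟨u, v, h1, h2, by omega⟩
      rw [reads_disj (gate_C ha hb hwn hr')] at he'
      obtain ⟨c, hc, he'⟩ := he'
      rw [mem_union] at hc
      rcases hc with hc | hc
      · split_ifs at hc with h0
        · rw [mem_singleton] at hc
          subst hc
          exact step _ (by omega) he'
        · simp at hc
      · split_ifs at hc with h0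
        · rw [mem_singleton] at hc
          subst hc
          rw [reads_conj (gate_A ha hb hwn hr')] at he'
          rcases he' with he' | he'
          · rw [reads_leaf (gate_L ha hb hwn.le)] at he'
            obtain ⟨u, v, h1, h2, h3, h4, h5⟩ := (mem_filter.1 he').2
            exact ⟨u, v, h1, h5, by omega⟩
          · exact step _ (by omega) he'
        · simp at hc
    · exact ih w hw (by omega) r' hr' he'

end reads

theorem circ_decomposable : (circ n L B).Decomposable := by
  intro v c d hv e hc hd
  match v with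
  | .inl (a, r) =>
    simp only [circ, gateU] at hv
    split_ifs at hv with h
  | .inr (.inl (a, b, w, K, r)) =>
    simp only [circ, gateU] at hv
    split_ifs at hv with h
  | .inr (.inr (.inr (a, b, w, K, r))) => simp [circ, gateU] at hv
  | .inr (.inr (.inl (a, b, w, K, r))) =>
    have ha : (a : ℕ) ≤ n := by omega
    have hb : (b : ℕ) ≤ n := by omega
    have hr : (r : ℕ) ≤ B := by omega
    simp only [circ, gateU] at hv
    split_ifs at hv with h
    simp only [Gate.conj.injEq] at hv
    obtain ⟨rfl, rfl⟩ := hv
    have hw : (w : ℕ) < n := by omega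
    rw [reads_leaf (gate_L ha hb hw.le)] at hc
    obtain ⟨u, v, rfl, h2, h3, h4, h5⟩ := (mem_filter.1 hc).2
    obtain ⟨u', v', h6, h7, h8⟩ := reads_C ha hb n (w + 1) (by omega) (by omega) r hr hd
    rw [Sym2.eq_iff] at h6
    rcases h6 with ⟨rfl, rfl⟩ | ⟨rfl, rfl⟩
    · omega
    · exact absurd (h5.trans h7) (lt_irrefl _)

theorem leafS_card (a b w : ℕ) : (leafS n a b w).card ≤ n := by
  classical
  by_cases h : w < n
  · have hsub : leafS n a b w ⊆ (univ : Finset (Fin n)).image fun u => s(u, ⟨w, h⟩) := by
      intro e he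
      obtain ⟨u, v, h1, h2, h3, h4, h5⟩ := (mem_filter.1 he).2
      refine mem_image.2 ⟨u, mem_univ _, ?_⟩
      have hv : v = ⟨w, h⟩ := Fin.ext h2
      rw [h1, hv]
    refine (card_le_card hsub).trans (card_image_le.trans ?_)
    simp
  · have : leafS n a b w = ∅ := by
      refine filter_eq_empty_iff.2 ?_
      rintro e - ⟨u, v, h1, h2, h3, h4, h5⟩
      have := v.2
      omega
    rw [this]
    simp

theorem circ_leafSize : (circ n L B).LeafSize n := by
  intro v S f hv
  match v with
  | .inl (a, r) =>
    simp only [circ, gateU] at hv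
    split_ifs at hv with h
    simp only [Gate.leaf.injEq] at hv
    rw [← hv.1]
    simp
  | .inr (.inl (a, b, w, K, r)) =>
    simp only [circ, gateU] at hv
    split_ifs at hv with h
  | .inr (.inr (.inl (a, b, w, K, r))) =>
    simp only [circ, gateU] at hv
    split_ifs at hv with h
  | .inr (.inr (.inr (a, b, w, K, r))) =>
    simp only [circ, gateU, Gate.leaf.injEq] at hv
    rw [← hv.1]
    exact leafS_card n a b w

section sound

variable {n L B}

theorem sound_C {x : Sym2 (Fin n) → Bool} {a b : ℕ} {K : KT n L} (ha : a ≤ n) (hb : b ≤ n)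
    (hS : ∀ r ≤ B, (circ n L B).True x (gS n L B b r) → ∃ T : Finset (Fin n), T.card ≤ r ∧
      ∀ u v : Fin n, b ≤ (u : ℕ) → u < v → x s(u, v) = true → u ∈ T ∨ v ∈ T) :
    ∀ j w : ℕ, w ≤ n → n - w ≤ j → ∀ r ≤ B, (circ n L B).True x (gC n L B a b w K r) →
    ∃ T : Finset (Fin n), T.card ≤ r ∧
      (∀ u v : Fin n, b ≤ (u : ℕ) → u < v → x s(u, v) = true → u ∈ T ∨ v ∈ T) ∧
      (∀ v ∈ K.1, w ≤ (v : ℕ) → v ∈ T) ∧
      (∀ u v : Fin n, a ≤ (u : ℕ) → (u : ℕ) < b → u < v → w ≤ (v : ℕ) → x s(u, v) = true →
        u ∈ K.1 ∨ v ∈ T) := by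
  classical
  intro j
  induction j with
  | zero =>
    intro w hw hj r hr ht
    have : w = n := by omega
    subst this
    rw [true_disj (gate_Cn hb hr)] at ht
    obtain ⟨c, hc, ht⟩ := ht
    rw [mem_singleton] at hc
    subst hc
    obtain ⟨T, h1, h2⟩ := hS r hr ht
    refine ⟨T, h1, h2, ?_, ?_⟩
    · intro v _ hv
      have := v.2
      omega
    · intro u v _ _ _ hv
      have := v.2
      omega
  | succ j ih =>
    intro w hw hj r hr ht
    rcases Nat.lt_or_ge w n with hwn | hwn
    · rw [true_disj (gate_C ha hb hwn hr)] at ht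
      obtain ⟨c, hc, ht⟩ := ht
      rw [mem_union] at hc
      rcases hc with hc | hc
      · split_ifs at hc with h0
        · rw [mem_singleton] at hc
          subst hc
          obtain ⟨T, h1, h2, h3, h4⟩ := ih (w + 1) (by omega) (by omega) _ (by omega) ht
          refine ⟨insert ⟨w, hwn⟩ T, ?_, ?_, ?_, ?_⟩
          · have := card_insert_le (⟨w, hwn⟩ : Fin n) T
            omega
          · intro u v hu huv he
            rcases h2 u v hu huv he with h | h
            · exact Or.inl (mem_insert_of_mem h)
            · exact Or.inr (mem_insert_of_mem h)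
          · intro v hv hwv
            rcases Nat.lt_or_ge w (v : ℕ) with h | h
            · exact mem_insert_of_mem (h3 v hv (by omega))
            · have : v = ⟨w, hwn⟩ := Fin.ext (by simp only; omega)
              rw [this]
              exact mem_insert_self _ _
          · intro u v hu hub huv hwv he
            rcases Nat.lt_or_ge w (v : ℕ) with h | h
            · rcases h4 u v hu hub huv (by omega) he with h | h
              · exact Or.inl h
              · exact Or.inr (mem_insert_of_mem h)
            · have : v = ⟨w, hwn⟩ := Fin.ext (by simp only; omega)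
              rw [this]
              exact Or.inr (mem_insert_self _ _)
        · simp at hc
      · split_ifs at hc with h0
        · rw [mem_singleton] at hc
          subst hc
          rw [true_conj (gate_A ha hb hwn hr), true_leaf (gate_L ha hb hwn.le)] at ht
          obtain ⟨hl, ht⟩ := ht
          obtain ⟨T, h1, h2, h3, h4⟩ := ih (w + 1) (by omega) (by omega) _ (by omega) ht
          refine ⟨T, h1, h2, ?_, ?_⟩
          · intro v hv hwv
            have := h0 v hv
            exact h3 v hv (by omega)
          · intro u v hu hub huv hwv he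
            rcases Nat.lt_or_ge w (v : ℕ) with h | h
            · exact h4 u v hu hub huv (by omega) he
            · refine Or.inl ?_
              by_contra hK
              rw [hl u v (by omega) hu hub huv hK] at he
              simp at he
        · simp at hc
    · exact ih w hw (by omega) r hr ht

theorem sound_S {x : Sym2 (Fin n) → Bool} (m : ℕ) :
    ∀ a r : ℕ, a ≤ n → r ≤ B → n - a ≤ m → (circ n L B).True x (gS n L B a r) →
      ∃ T : Finset (Fin n), T.card ≤ r ∧
      ∀ u v : Fin n, a ≤ (u : ℕ) → u < v → x s(u, v) = true → u ∈ T ∨ v ∈ T := by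
  classical
  induction m using Nat.strong_induction_on with
  | _ m IH =>
    intro a r ha hr hm ht
    rcases Nat.lt_or_ge a n with han | han
    · rw [true_disj (gate_S han hr)] at ht
      obtain ⟨c, hc, ht⟩ := ht
      obtain ⟨⟨b, K⟩, hp, rfl⟩ := mem_image.1 hc
      have hab : a < (b : ℕ) := (mem_filter.1 hp).2
      have hbn : (b : ℕ) ≤ n := by omega
      obtain ⟨T, h1, h2, h3, h4⟩ := sound_C ha hbn
        (fun r' hr' h' => IH (n - b) (by omega) b r' hbn hr' le_rfl h') n a ha (by omega) r hr ht
      refine ⟨T, h1, fun u v hu huv he => ?_⟩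
      rcases Nat.lt_or_ge (u : ℕ) b with hub | hub
      · have hv : a ≤ (v : ℕ) := by
          have : (u : ℕ) < v := huv
          omega
        rcases h4 u v hu hub huv hv he with h | h
        · exact Or.inl (h3 u h hu)
        · exact Or.inr h
      · exact h2 u v hub huv he
    · refine ⟨∅, by simp, fun u v hu _ _ => ?_⟩
      have := u.2
      omega

end sound

section complete

variable {n L B}

/-- the members of `T` from `w` on -/
def tl (T : Finset (Fin n)) (w : ℕ) : ℕ := (T.filter fun v : Fin n => w ≤ (v : ℕ)).card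

theorem tl_le (T : Finset (Fin n)) (w : ℕ) : tl T w ≤ T.card := card_le_card (filter_subset _ _)

theorem tl_anti (T : Finset (Fin n)) {w w' : ℕ} (h : w ≤ w') : tl T w' ≤ tl T w := by
  refine card_le_card fun v hv => ?_
  rw [mem_filter] at hv ⊢
  exact ⟨hv.1, h.trans hv.2⟩

theorem tl_mem {T : Finset (Fin n)} {w : ℕ} (hw : w < n) (h : ⟨w, hw⟩ ∈ T) :
    tl T w = tl T (w + 1) + 1 := by
  classical
  have : T.filter (fun v : Fin n => w ≤ (v : ℕ)) =
      insert ⟨w, hw⟩ (T.filter fun v : Fin n => w + 1 ≤ (v : ℕ)) := by
    ext v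
    simp only [mem_filter, mem_insert]
    constructor
    · rintro ⟨h1, h2⟩
      rcases Nat.lt_or_ge w (v : ℕ) with h3 | h3
      · exact Or.inr ⟨h1, h3⟩
      · exact Or.inl (Fin.ext (by simp only; omega))
    · rintro (h1 | h1)
      · subst h1
        exact ⟨h, le_rfl⟩
      · exact ⟨h1.1, by omega⟩
  rw [tl, this, card_insert_of_notMem (by simp), tl]

theorem tl_not_mem {T : Finset (Fin n)} {w : ℕ} (h : ∀ v ∈ T, (v : ℕ) ≠ w) :
    tl T w = tl T (w + 1) := by
  classical
  unfold tl
  congr 1
  ext v
  simp only [mem_filter]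
  constructor
  · rintro ⟨h1, h2⟩
    have := h v h1
    exact ⟨h1, by omega⟩
  · rintro ⟨h1, h2⟩
    exact ⟨h1, by omega⟩

theorem complete_C {x : Sym2 (Fin n) → Bool} {a b : ℕ} {K : KT n L} (T : Finset (Fin n))
    (hT : ∀ u v : Fin n, u < v → x s(u, v) = true → u ∈ T ∨ v ∈ T) (ha : a ≤ n) (hb : b ≤ n)
    (hK : ∀ v : Fin n, v ∈ K.1 ↔ v ∈ T ∧ a ≤ (v : ℕ) ∧ (v : ℕ) < b) :
    ∀ j w : ℕ, a ≤ w → w ≤ n → n - w ≤ j → ∀ r ≤ B, tl T w ≤ r →
      (circ n L B).True x (gS n L B b (r - tl T w)) →
      (circ n L B).True x (gC n L B a b w K r) := by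
  classical
  intro j
  induction j with
  | zero =>
    intro w haw hw hj r hr h1 h2
    have : w = n := by omega
    subst this
    rw [true_disj (gate_Cn hb hr)]
    have h0 : tl T w = 0 := by
      unfold tl
      rw [card_eq_zero, filter_eq_empty_iff]
      intro v _ hv
      have := v.2
      omega
    rw [h0, Nat.sub_zero] at h2
    exact ⟨_, mem_singleton_self _, h2⟩
  | succ j ih =>
    intro w haw hw hj r hr h1 h2
    rcases Nat.lt_or_ge w n with hwn | hwn
    · rw [true_disj (gate_C ha hb hwn hr)]
      by_cases hm : (⟨w, hwn⟩ : Fin n) ∈ T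
      · have h3 := tl_mem hwn hm
        refine ⟨gC n L B a b (w + 1) K (r - 1), ?_, ?_⟩
        · rw [mem_union, if_pos (by omega)]
          exact Or.inl (mem_singleton_self _)
        · refine ih (w + 1) (by omega) (by omega) (by omega) _ (by omega) (by omega) ?_
          have : r - 1 - tl T (w + 1) = r - tl T w := by omega
          rw [this]
          exact h2
      · have hm' : ∀ v ∈ T, (v : ℕ) ≠ w := by
          intro v hv hvw
          apply hm
          have : v = ⟨w, hwn⟩ := Fin.ext hvw
          rwa [← this]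
        have h3 := tl_not_mem hm'
        refine ⟨gA n L B a b w K r, ?_, ?_⟩
        · rw [mem_union, if_pos (c := ∀ v ∈ K.1, (v : ℕ) ≠ w)
            (fun v hv => hm' v ((hK v).1 hv).1)]
          exact Or.inr (mem_singleton_self _)
        · rw [true_conj (gate_A ha hb hwn hr), true_leaf (gate_L ha hb hwn.le)]
          refine ⟨?_, ?_⟩
          · intro u v hv hu hub huv huK
            by_contra he
            rw [Bool.not_eq_false] at he
            rcases hT u v huv he with h | h
            · exact huK ((hK u).2 ⟨h, hu, hub⟩)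
            · exact hm' v h hv
          · refine ih (w + 1) (by omega) (by omega) (by omega) _ hr (by omega) ?_
            rw [← h3]
            exact h2
    · exact ih w haw hw (by omega) r hr h1 h2

theorem true_Sn {x : Sym2 (Fin n) → Bool} (r : ℕ) : (circ n L B).True x (gS n L B n r) := by
  rw [true_leaf gate_Sn]
  trivial

/-- the end of the next block -/
theorem exists_end (T : Finset (Fin n)) (hL : 1 ≤ L) {a : ℕ} (h : L < tl T a) :
    ∃ b, a < b ∧ b ≤ n ∧ tl T a = tl T b + L := by
  classical
  have h0 : tl T n = 0 := by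
    unfold tl
    rw [card_eq_zero, filter_eq_empty_iff]
    intro v _ hv
    have := v.2
    omega
  have hex : ∃ b, tl T b + L ≤ tl T a := ⟨n, by omega⟩
  set b := Nat.find hex with hb
  have h1 : tl T b + L ≤ tl T a := Nat.find_spec hex
  have hbn : b ≤ n := Nat.find_min' hex (by omega)
  have hab : a < b := by
    by_contra hcon
    have := tl_anti T (Nat.le_of_not_lt hcon)
    omega
  have h2 : ¬ tl T (b - 1) + L ≤ tl T a := Nat.find_min hex (by omega)
  have h3 : tl T (b - 1) ≤ tl T b + 1 := by
    by_cases hm : ∀ v ∈ T, (v : ℕ) ≠ b - 1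
    · rw [tl_not_mem hm, Nat.sub_add_cancel (by omega)]
      omega
    · push Not at hm
      obtain ⟨v, hv, hvb⟩ := hm
      have hbn' : b - 1 < n := by omega
      have hmem : (⟨b - 1, hbn'⟩ : Fin n) ∈ T := by
        have : v = ⟨b - 1, hbn'⟩ := Fin.ext hvb
        rwa [← this]
      rw [tl_mem hbn' hmem, Nat.sub_add_cancel (by omega)]
  exact ⟨b, hab, hbn, by omega⟩

/-- the members of `T` in a block -/
theorem block_card (T : Finset (Fin n)) {a b : ℕ} (hab : a ≤ b) :
    (T.filter fun v : Fin n => a ≤ (v : ℕ) ∧ (v : ℕ) < b).card + tl T b = tl T a := by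
  classical
  unfold tl
  rw [← card_union_of_disjoint]
  · congr 1
    ext v
    simp only [mem_union, mem_filter]
    constructor
    · rintro (h | h)
      · exact ⟨h.1, h.2.1⟩
      · exact ⟨h.1, hab.trans h.2⟩
    · rintro ⟨h1, h2⟩
      rcases Nat.lt_or_ge (v : ℕ) b with h3 | h3
      · exact Or.inl ⟨h1, h2, h3⟩
      · exact Or.inr ⟨h1, h3⟩
  · rw [disjoint_filter]
    intro v _ h1 h2
    omega

theorem complete_S {x : Sym2 (Fin n) → Bool} (hL : 1 ≤ L) (T : Finset (Fin n))
    (hT : ∀ u v : Fin n, u < v → x s(u, v) = true → u ∈ T ∨ v ∈ T) :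
    ∀ j a r : ℕ, a ≤ n → r ≤ B → tl T a ≤ L * j → T.card * j ≤ r →
      (circ n L B).True x (gS n L B a r) := by
  classical
  intro j
  induction j with
  | zero =>
    intro a r ha hr h1 h2
    rcases Nat.lt_or_ge a n with han | han
    · rw [true_disj (gate_S han hr)]
      have h3 := block_card T ha
      refine ⟨gC n L B a n a ⟨T.filter fun v : Fin n => a ≤ (v : ℕ) ∧ (v : ℕ) < n, by omega⟩ r, ?_, ?_⟩
      · refine mem_image.2 ⟨(⟨n, by omega⟩, _), mem_filter.2 ⟨mem_univ _, han⟩, rfl⟩
      · exact complete_C T hT ha le_rfl (fun v => by simp) n a le_rfl ha (by omega) r hr (by omega)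
          (true_Sn _)
    · have : a = n := by omega
      subst this
      exact true_Sn _
  | succ j ih =>
    intro a r ha hr h1 h2
    rcases Nat.lt_or_ge a n with han | han
    · have h4 : T.card * j + T.card ≤ r := by
        rw [Nat.mul_succ] at h2
        exact h2
      have h5 := tl_le T a
      rw [true_disj (gate_S han hr)]
      rcases Nat.lt_or_ge L (tl T a) with h6 | h6
      · obtain ⟨b, hab, hbn, h7⟩ := exists_end T hL h6
        have h3 := block_card T hab.le
        refine ⟨gC n L B a b a ⟨T.filter fun v : Fin n => a ≤ (v : ℕ) ∧ (v : ℕ) < b, by omega⟩ r, ?_, ?_⟩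
        · refine mem_image.2 ⟨(⟨b, by omega⟩, _), mem_filter.2 ⟨mem_univ _, hab⟩, rfl⟩
        · refine complete_C T hT ha hbn (fun v => by simp) n a le_rfl ha (by omega) r hr (by omega)
            ?_
          refine ih b (r - tl T a) hbn (by omega) ?_ (by omega)
          rw [Nat.mul_succ] at h1
          omega
      · have h3 := block_card T ha
        refine ⟨gC n L B a n a ⟨T.filter fun v : Fin n => a ≤ (v : ℕ) ∧ (v : ℕ) < n, by omega⟩ r, ?_, ?_⟩
        · refine mem_image.2 ⟨(⟨n, by omega⟩, _), mem_filter.2 ⟨mem_univ _, han⟩, rfl⟩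
        · exact complete_C T hT ha le_rfl (fun v => by simp) n a le_rfl ha (by omega) r hr
            (by omega) (true_Sn _)
    · have : a = n := by omega
      subst this
      exact true_Sn _

end complete

theorem card_KT : Fintype.card (KT n L) = ∑ j ∈ range (L + 1), n.choose j := by
  classical
  rw [Fintype.card_subtype]
  have : (univ.filter fun K : Finset (Fin n) => K.card ≤ L) =
      (range (L + 1)).biUnion fun j => powersetCard j (univ : Finset (Fin n)) := by
    ext K
    simp only [mem_filter, mem_univ, true_and, mem_biUnion, mem_range, mem_powersetCard,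
      subset_univ, exists_eq_right']
    omega
  rw [this, card_biUnion]
  · simp
  · intro i _ j _ hij
    rw [Function.onFun, disjoint_left]
    intro K h1 h2
    rw [mem_powersetCard] at h1 h2
    omega

end UpL

open UpL in
theorem up : S_UP := by
  classical
  intro n L B hL
  refine ⟨GT n L B, inferInstance, circ n L B, ?_, circ_decomposable n L B,
    circ_leafSize n L B, ?_, ?_⟩
  · rw [Fintype.card_sum, Fintype.card_sum, Fintype.card_sum, Fintype.card_prod]
    simp only [Fintype.card_prod, Fintype.card_fin]
    rw [card_KT]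
    set N := ∑ j ∈ range (L + 1), n.choose j with hN
    have hN1 : 1 ≤ N := by
      rw [hN]
      refine le_trans ?_ (single_le_sum (f := fun j => n.choose j) (fun _ _ => Nat.zero_le _)
        (mem_range.2 (Nat.succ_pos L)))
      simp
    have h1 : (n + 1) * (B + 1) ≤ (n + 1) ^ 4 * (B + 1) * N := by
      calc (n + 1) * (B + 1) = (n + 1) ^ 1 * (B + 1) * 1 := by ring
        _ ≤ (n + 1) ^ 4 * (B + 1) * N := by
            refine Nat.mul_le_mul (Nat.mul_le_mul_right _ ?_) hN1
            exact Nat.pow_le_pow_right (Nat.succ_pos n) (by norm_num)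
    have h2 : (n + 1) * ((n + 1) * ((n + 1) * (N * (B + 1)))) ≤ (n + 1) ^ 4 * (B + 1) * N := by
      calc (n + 1) * ((n + 1) * ((n + 1) * (N * (B + 1)))) = (n + 1) ^ 3 * (B + 1) * N := by ring
        _ ≤ (n + 1) ^ 4 * (B + 1) * N := by
            refine Nat.mul_le_mul_right _ (Nat.mul_le_mul_right _ ?_)
            exact Nat.pow_le_pow_right (Nat.succ_pos n) (by norm_num)
    linarith
  · intro G hG
    obtain ⟨T, h1, h2⟩ := sound_S (n := n) (L := L) (B := B) n 0 B (Nat.zero_le _) le_rfl
      (by omega) hG
    refine (vc_le G T ?_).trans h1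
    intro u v huv
    rcases lt_trichotomy u v with h | h | h
    · have := h2 u v (Nat.zero_le _) h (by simpa [code] using huv)
      simpa using this
    · exact absurd h huv.ne
    · have := h2 v u (Nat.zero_le _) h (by simpa [code] using huv.symm)
      simpa using this.symm
  · intro G hG
    obtain ⟨T, hT, hc⟩ := exists_cover G
    refine complete_S hL T ?_ ((vc G + L - 1) / L) 0 B (Nat.zero_le _) le_rfl ?_ ?_
    · intro u v _ he
      have huv : G.Adj u v := by simpa [code] using he
      simpa using hc huv
    · refine (tl_le T 0).trans ?_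
      rw [hT]
      have h3 := Nat.div_add_mod (vc G + L - 1) L
      have h4 := Nat.mod_lt (vc G + L - 1) hL
      omega
    · rw [hT]
      exact hG

end Pool.Agent.Helper68K9.SQ
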